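import Pool.Agent.J6H98.Sel.Final

/-!
# Homogeneous selection for colour classes of arbitrary sizes

For every dimension `d ≥ 1` there is a constant `c > 0`, depending only on `d`, such that every
`d + 1` nonempty finite sets in `ℝ^d`, of arbitrary sizes, admit a homogeneous selection with the
constant `c`. The same constant works for arbitrary nonnegative weights on the points.
-/

set_option autoImplicit false

namespace Pool.Agent.Results.MP_c3eb34_co.HomogeneousSelection

/-- The classes `C 0, …, C d` in `ℝ^d` admit a homogeneous selection with the constant `c`: there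
are a point `p` and subsets `D i ⊆ C i` with `|D i| ≥ c |C i|` such that every transversal of the
`D i` has `p` in its convex hull. -/
def Selection (d : ℕ) (c : ℝ) (C : Fin (d + 1) → Finset (EuclideanSpace ℝ (Fin d))) : Prop :=
  ∃ (p : EuclideanSpace ℝ (Fin d)) (D : Fin (d + 1) → Finset (EuclideanSpace ℝ (Fin d))),
    (∀ i, D i ⊆ C i ∧ c * ((C i).card : ℝ) ≤ ((D i).card : ℝ)) ∧
    ∀ x : Fin (d + 1) → EuclideanSpace ℝ (Fin d), (∀ i, x i ∈ D i) →
      p ∈ convexHull ℝ (Set.range x)

/-- The same with the weights `w i` on the points of `C i`: the subset `D i` carries at least the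
fraction `c` of the weight of `C i`. -/
def WeightedSelection (d : ℕ) (c : ℝ) (C : Fin (d + 1) → Finset (EuclideanSpace ℝ (Fin d)))
    (w : Fin (d + 1) → EuclideanSpace ℝ (Fin d) → ℝ) : Prop :=
  ∃ (p : EuclideanSpace ℝ (Fin d)) (D : Fin (d + 1) → Finset (EuclideanSpace ℝ (Fin d))),
    (∀ i, D i ⊆ C i ∧ c * ∑ x ∈ C i, w i x ≤ ∑ x ∈ D i, w i x) ∧
    ∀ x : Fin (d + 1) → EuclideanSpace ℝ (Fin d), (∀ i, x i ∈ D i) →
      p ∈ convexHull ℝ (Set.range x)

/-- For every `d ≥ 1` there is `c > 0` such that all `d + 1` nonempty finite sets in `ℝ^d`, of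
arbitrary sizes, admit a homogeneous selection with the constant `c`, and so do all `d + 1` finite
sets with nonnegative weights of positive total weight. -/
theorem result : ∀ d : ℕ, 1 ≤ d → ∃ c : ℝ, 0 < c ∧
    (∀ C : Fin (d + 1) → Finset (EuclideanSpace ℝ (Fin d)), (∀ i, (C i).Nonempty) →
      Selection d c C) ∧
    (∀ (C : Fin (d + 1) → Finset (EuclideanSpace ℝ (Fin d)))
      (w : Fin (d + 1) → EuclideanSpace ℝ (Fin d) → ℝ), (∀ i, ∀ x ∈ C i, 0 ≤ w i x) →
      (∀ i, 0 < ∑ x ∈ C i, w i x) → WeightedSelection d c C w) := by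
  intro d hd
  obtain ⟨c, hc, hP⟩ := Pool.Agent.J6H98.Sel.pach d hd
  have hW : ∀ (C : Fin (d + 1) → Finset (EuclideanSpace ℝ (Fin d)))
      (w : Fin (d + 1) → EuclideanSpace ℝ (Fin d) → ℝ), (∀ i, ∀ x ∈ C i, 0 ≤ w i x) →
      (∀ i, 0 < ∑ x ∈ C i, w i x) → WeightedSelection d c C w := fun C w hw hw0 =>
    Pool.Agent.R87.HS.w_sel hd hc hP C w hw hw0
  refine ⟨c, hc, ?_, hW⟩
  intro C hC
  obtain ⟨p, D, hD, hp⟩ := hW C (fun _ _ => 1) (fun _ _ _ => zero_le_one) (fun i => by
    simpa using hC i)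
  exact ⟨p, D, fun i => ⟨(hD i).1, by simpa using (hD i).2⟩, hp⟩

end Pool.Agent.Results.MP_c3eb34_co.HomogeneousSelection
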